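import Mathlib
import Pool.Agent.R488.Tw.Main
import Pool.Agent.R488.Tw.Red
import Pool.Agent.R488.Tw.U
import Pool.Agent.R488.Tw.C
import Pool.Agent.R488.Tw.D
import Pool.Agent.R488.Tw.J
import Pool.Agent.R488.Tw.S
import Pool.Agent.R488.Tw.QF
import Pool.Agent.R488.Tw.Bin

/-!
# `∑_{k<p} u_k(4,1) C(2k,k)^2 / 64^k = 2y - p/(6y)` modulo `p^2`, `p = 7` modulo `12`

Proof: the sum is a Legendre polynomial at an irrational point, which by a quadratic transformation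
is a truncated `2F1(3/4,3/4;1;1/4)` modulo `p^2`; it is the value at `0` of a family which is affine
modulo `p^2` and has closed forms at two terminating points.  The result is a binomial coefficient
which is evaluated by a Jacobi sum modulo `p^2`; the sign is found by Jacobi symbols.
-/

set_option autoImplicit false

namespace Pool.Agent.Results.MP_d57286_nt.LucasWeightedQ1

open Finset

/-- the Lucas sequence `u_k(4,1)`: `u_0 = 0`, `u_1 = 1`, `u_{k+1} = 4 u_k - u_{k-1}` -/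
def u : ℕ → ℤ
  | 0 => 0
  | 1 => 1
  | (n + 2) => 4 * u (n + 1) - u n

/-- `x ≡ y (mod p^2)` for rational numbers `x`, `y` with denominators prime to `p`:
the numerator of `x - y` (in lowest terms) is divisible by `p^2`. -/
def CongrSq (p : ℕ) (x y : ℚ) : Prop :=
  ¬ p ∣ x.den ∧ ¬ p ∣ y.den ∧ (p : ℤ) ^ 2 ∣ (x - y).num

open Pool.Agent.R439.PL Pool.Agent.R488.Cub Pool.Agent.R488.Tw

theorem num_of_I {p : ℕ} [hp : Fact p.Prime] {x : ℚ} (h : I p 2 x) : (p : ℤ) ^ 2 ∣ x.num := by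
  obtain ⟨y, ⟨a, b, hb, rfl⟩, h⟩ := h
  have hb0 : (b : ℚ) ≠ 0 := by
    intro h; apply hb; have : b = 0 := by exact_mod_cast h
    rw [this]; exact dvd_zero _
  have hd0 : (x.den : ℚ) ≠ 0 := by exact_mod_cast x.den_nz
  have h0 : x * b = (p : ℚ) ^ 2 * a := by
    rw [h]; field_simp
  have h1 : (x.num : ℚ) * b = (p : ℚ) ^ 2 * (a * x.den) := by
    have e : (x.num : ℚ) = x * x.den := (Rat.mul_den_eq_num x).symm
    rw [e]
    linear_combination (x.den : ℚ) * h0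
  have h2 : x.num * b = (p : ℤ) ^ 2 * (a * x.den) := by exact_mod_cast h1
  have hc : IsCoprime ((p : ℤ) ^ 2) b :=
    IsCoprime.pow_left ((Prime.coprime_iff_not_dvd (pz (p := p))).2 hb)
  exact hc.dvd_of_dvd_mul_right ⟨_, h2⟩

theorem congr_of_EQ {p : ℕ} [Fact p.Prime] {x y : ℚ} (h : EQ p 2 x y) : CongrSq p x y := by
  refine ⟨?_, ?_, num_of_I h.2.2⟩
  · have := den_of_I (p := p) (k := 0) (I_zero_iff.2 h.1)
    rwa [pow_zero, div_one] at this
  · have := den_of_I (p := p) (k := 0) (I_zero_iff.2 h.2.1)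
    rwa [pow_zero, div_one] at this

theorem u_eq : ∀ k : ℕ, u k = uu k ∧ u (k + 1) = uu (k + 1) := by
  intro k
  induction k with
  | zero => exact ⟨rfl, rfl⟩
  | succ k ih =>
    refine ⟨ih.2, ?_⟩
    rw [u, uu, ih.1, ih.2]

theorem result (p : ℕ) (hp : p.Prime) (h : p % 12 = 7) :
    (∃ x y : ℤ, (p : ℤ) = x ^ 2 + 3 * y ^ 2 ∧ y % 4 = 1) ∧
    ∀ x y : ℤ, (p : ℤ) = x ^ 2 + 3 * y ^ 2 → y % 4 = 1 →
      CongrSq p (∑ k ∈ range p, (u k : ℚ) / 64 ^ k * ((2 * k).choose k : ℚ) ^ 2)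
        (2 * y - p / (6 * y)) := by
  haveI : Fact p.Prime := ⟨hp⟩
  obtain ⟨M, hM⟩ : ∃ M, p = 12 * M + 7 := ⟨p / 12, by omega⟩
  constructor
  · obtain ⟨A, B, t, h1, -⟩ := twJ p (2 * M + 1) (by omega)
    have hB : B % 2 = 1 := by
      rcases Int.emod_two_eq_zero_or_one B with hB | hB
      · exfalso
        obtain ⟨c, hc⟩ : ∃ c, B = 2 * c := ⟨B / 2, by omega⟩
        rcases Int.emod_two_eq_zero_or_one A with hA | hA
        · obtain ⟨d, hd⟩ : ∃ d, A = 2 * d := ⟨A / 2, by omega⟩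
          have : (p : ℤ) = 4 * (d ^ 2 + 3 * c ^ 2) := by rw [h1, hc, hd]; ring
          omega
        · obtain ⟨d, hd⟩ : ∃ d, A = 2 * d + 1 := ⟨A / 2, by omega⟩
          have : (p : ℤ) = 4 * (d ^ 2 + d + 3 * c ^ 2) + 1 := by rw [h1, hc, hd]; ring
          omega
      · exact hB
    rcases (show B % 4 = 1 ∨ B % 4 = 3 by omega) with h4 | h4
    · exact ⟨A, B, h1, h4⟩
    · exact ⟨A, -B, by rw [h1]; ring, by omega⟩
  · intro x y h1 h2
    have e : ∑ k ∈ range p, (u k : ℚ) / 64 ^ k * ((2 * k).choose k : ℚ) ^ 2 =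
        ∑ k ∈ range p, (uu k : ℚ) / 64 ^ k * ((2 * k).choose k : ℚ) ^ 2 :=
      sum_congr rfl fun k _ => by rw [(u_eq k).1]
    rw [e]
    exact congr_of_EQ ((red twU twB hM).trans (final twJ twS twF twQ twC twD hM h1 h2))

end Pool.Agent.Results.MP_d57286_nt.LucasWeightedQ1
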