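import Pool.Agent.R439.LW.Main
import Pool.Agent.R439.LW.P_POLY
import Pool.Agent.R439.LW.P_REV
import Pool.Agent.R439.LW.P_STR
import Pool.Agent.R439.LW.P_EXP
import Pool.Agent.R439.LW.P_KMOD
import Pool.Agent.R439.LW.P_LIN
import Pool.Agent.R439.LW.P_SQ

set_option autoImplicit false

/-!
Problem MP_d57286_nt, question Q2, in full (the congruence holds for every prime `p = 7 mod 12`).

Sketch.  `p = 2m+1 = 4l+3 = 6c+1`, `a_k = C(m,k) C(m+k,k)`.
1. Modulo `p^2` the two sums are `W = sum u_k (-1/4)^k a_k` and `V = sum k u_k (-1/4)^k a_k`.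
2. Exactly `W = -A/2`, `A = F(-l, l+3/2; 1; 1/4)`, and `sum chi_3(k) a_k = 2 F(-l, l+3/2; 1; 4)` (one quadratic
   transformation, evaluated at four points).
3. Reversal turns the last sum into `2K B`, `B = F(-l,-l;-2l-1/2;1/4)`; a certificate evaluates
   `C = F(-l,3l+3;2l+5/2;1/4)` as a product; termwise `2A = B + C` and `A^2 = B C` modulo `p^2`.  The product `C`
   is `2K` times `sum chi_3(k) a_k` modulo `p^2`, so `A^2` is the square of that sum, whose value is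
   `+-(4y - p/(3y))` by the weighted cubic Jacobi sums.  So `W = 2y - p/(6y)`.
4. Exactly `3 W^2 = T` and `W V = -D` with `T = sum C(2k,k) a_k (-1/16)^k`, `D` the same with weight `k`, and
   `6 D + T = -p` modulo `p^2` by two evaluations with certificates.  So `W (2V - W) = p/3` and `V = y`.
-/

namespace Pool.Agent.Results.MP_d57286_nt.QuestionTwo

open Finset Pool.Agent.Helper857.Pad

/-- the Lucas sequence `u_k(4,1)` -/
def u : ℕ → ℤ
  | 0 => 0
  | 1 => 1
  | (k+2) => 4 * u (k+1) - u k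

/-- the sum over `k < p` of `k u_k C(2k,k)^2 / 64^k` -/
def sumK (p : ℕ) : ℚ := ∑ k ∈ range p, (k : ℚ) * (u k : ℚ) * ((2 * k).choose k : ℚ) ^ 2 / 64 ^ k

/-- `a - b` is `p^2` times a rational number with denominator coprime to `p`. -/
def CongSq (p : ℕ) (a b : ℚ) : Prop := ∃ q : ℚ, Nat.Coprime q.den p ∧ a - b = (p : ℚ) ^ 2 * q

/-- `y = 1 (mod 4)` and `p = x^2 + 3 y^2` for some integer `x`. -/
def IsY (p : ℕ) (y : ℤ) : Prop := y % 4 = 1 ∧ ∃ x : ℤ, (p : ℤ) = x ^ 2 + 3 * y ^ 2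

lemma u_eq (k : ℕ) : u k = Pool.Agent.R439.LW.uL k := by
  induction k using Nat.strong_induction_on with
  | _ k ih =>
    match k with
    | 0 => rfl
    | 1 => rfl
    | (k+2) =>
      rw [u, Pool.Agent.R439.LW.uL, ih (k+1) (by omega), ih k (by omega)]

lemma core {p : ℕ} [hp : Fact p.Prime] (h7 : p % 12 = 7) (y : ℤ) (hy : IsY p y) : I p 2 (sumK p - y) := by
  obtain ⟨h4, x, hxy⟩ := hy
  obtain ⟨j, hj⟩ : ∃ j, p = 12*j+7 := ⟨p/12, by omega⟩
  have h1 := Pool.Agent.R439.LW.first (p := p) (c := 2*j+1) (by omega) (by omega)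
    Pool.Agent.R439.LW.t_POLY Pool.Agent.R439.LW.t_REV Pool.Agent.R439.LW.t_STR Pool.Agent.R439.LW.t_EXP
    Pool.Agent.R439.LW.t_KMOD (3*j+1) (by omega) x y h4 hxy
  have hyu := Pool.Agent.R439.LW.y_unit x y hxy
  have h2 := Pool.Agent.R439.LW.second (p := p) (m := 3*(2*j+1)) (by omega) (by omega)
    (Pool.Agent.R439.LW.t_SQ Pool.Agent.R439.LW.t_POLY) Pool.Agent.R439.LW.t_LIN (by omega) y hyu h1
  have h3 := Pool.Agent.R439.LW.t_RED2 (p := p) (m := 3*(2*j+1)) (by omega) (by omega)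
  have e : sumK p = ∑ k ∈ range p, ((k:ℚ) * (Pool.Agent.R439.LW.uL k : ℚ) * ((2*k).choose k : ℚ)^2 / 64^k) := by
    unfold sumK
    apply sum_congr rfl
    intro k _
    rw [u_eq]
  rw [e]
  have := h3.add h2
  convert this using 1
  ring

lemma cong_of_I {p : ℕ} [hp : Fact p.Prime] {a b : ℚ} (h : I p 2 (a - b)) : CongSq p a b := by
  obtain ⟨y, hy, e⟩ := h
  rw [mem_Zp] at hy
  exact ⟨y, ((Nat.Prime.coprime_iff_not_dvd hp.out).mpr hy).symm, e⟩

lemma exists_y {p : ℕ} [hp : Fact p.Prime] (h7 : p % 12 = 7) : ∃ y : ℤ, IsY p y := by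
  obtain ⟨j, hj⟩ : ∃ j, p = 12*j+7 := ⟨p/12, by omega⟩
  obtain ⟨a, b, -, hab⟩ := Pool.Agent.R856.CM.s1_form (p := p) (c := 2*j+1) (by omega) (by omega)
  have h3 : (p:ℤ) % 4 = 3 := by omega
  have hb : b % 2 = 1 := by
    rcases Int.emod_two_eq_zero_or_one b with h | h
    · exfalso
      obtain ⟨c, rfl⟩ : ∃ c, b = 2*c := ⟨b/2, by omega⟩
      have e : (p:ℤ) = a^2 + 4*(3*c^2) := by rw [hab]; ring
      have h5 : a^2 % 4 = 3 := by omega
      rcases Int.emod_two_eq_zero_or_one a with h6 | h6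
      · obtain ⟨d, rfl⟩ : ∃ d, a = 2*d := ⟨a/2, by omega⟩
        have : (2*d)^2 = 4*d^2 := by ring
        omega
      · obtain ⟨d, rfl⟩ : ∃ d, a = 2*d+1 := ⟨a/2, by omega⟩
        have : (2*d+1)^2 = 4*(d^2+d)+1 := by ring
        omega
    · exact h
  rcases (show b % 4 = 1 ∨ b % 4 = 3 by omega) with h | h
  · exact ⟨b, h, a, hab⟩
  · refine ⟨-b, by omega, a, ?_⟩
    rw [hab]; ring

lemma uniq {p : ℕ} [hp : Fact p.Prime] (h7 : p % 12 = 7) (y z : ℤ) (hy : IsY p y) (hz : IsY p z) : y = z := by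
  have h1 := core h7 y hy
  have h2 := core h7 z hz
  have h3 : I p 2 ((z:ℚ) - y) := by
    have := h1.sub h2
    convert this using 1
    ring
  obtain ⟨q, hq, e⟩ := h3
  -- `q` is an integer
  have hp0 : 0 < p := hp.out.pos
  have h4 : ((p:ℤ)^2) ∣ (z - y) := by
    rw [mem_Zp] at hq
    have e1 : ((z - y : ℤ) : ℚ) * q.den = ((p:ℤ)^2 * q.num : ℤ) := by
      push_cast
      rw [e, mul_assoc]
      congr 1
      exact Rat.mul_den_eq_num q
    have e2 : (z - y) * (q.den : ℤ) = (p:ℤ)^2 * q.num := by exact_mod_cast e1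
    have hcop : IsCoprime ((p:ℤ)^2) (q.den : ℤ) := by
      apply IsCoprime.pow_left
      rw [Nat.isCoprime_iff_coprime]
      exact (Nat.Prime.coprime_iff_not_dvd hp.out).mpr hq
    exact hcop.dvd_of_dvd_mul_right (Dvd.intro _ e2.symm)
  obtain ⟨-, x, hx⟩ := hy
  obtain ⟨-, x', hx'⟩ := hz
  have hp3 : (3:ℤ) < p := by
    have : 3 < p := by
      have := hp.out.two_le
      omega
    exact_mod_cast this
  have hy1 : |y| < p := by
    apply abs_lt_of_sq_lt_sq _ (by omega)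
    nlinarith [sq_nonneg x, sq_nonneg y]
  have hz1 : |z| < p := by
    apply abs_lt_of_sq_lt_sq _ (by omega)
    nlinarith [sq_nonneg x', sq_nonneg z]
  rw [abs_lt] at hy1 hz1
  obtain ⟨t, ht⟩ := h4
  have : t = 0 := by
    by_contra h0
    have h5 : 1 ≤ |t| := Int.one_le_abs h0
    have h6 : |z - y| = (p:ℤ)^2 * |t| := by rw [ht, abs_mul, abs_of_pos (by positivity)]
    have h7 : |z - y| < 2 * p := by rw [abs_lt]; constructor <;> linarith [hy1.1, hy1.2, hz1.1, hz1.2]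
    nlinarith
  rw [this, mul_zero] at ht
  omega

/-- Question Q2: for every prime `p = 7 (mod 12)` there is exactly one `y` with `y = 1 (mod 4)` and
`p = x^2 + 3 y^2`, and the sum over `k < p` of `k u_k(4,1) C(2k,k)^2 / 64^k` is `y` modulo `p^2`. -/
theorem result (p : ℕ) (hp : p.Prime) (h7 : p % 12 = 7) :
    (∃! y : ℤ, IsY p y) ∧ ∀ y : ℤ, IsY p y → CongSq p (sumK p) y := by
  haveI : Fact p.Prime := ⟨hp⟩
  refine ⟨?_, fun y hy => cong_of_I (core h7 y hy)⟩
  obtain ⟨y, hy⟩ := exists_y h7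
  exact ⟨y, hy, fun z hz => uniq h7 z y hz hy⟩

end Pool.Agent.Results.MP_d57286_nt.QuestionTwo
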